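import Mathlib

/-!
# Rotations of finite-dimensional inner product spaces
-/

open Module

namespace Pool.Agent.Helper98_Assouad

variable {E : Type*} [NormedAddCommGroup E] [InnerProductSpace ℝ E] [FiniteDimensional ℝ E]

omit [FiniteDimensional ℝ E] in
/-- Reflections in hyperplanes orthogonal to nearby vectors are close. -/
theorem norm_reflection_sub_le (m p y : E) (hm : m ≠ 0) (hp : p ≠ 0) :
    ‖(Submodule.reflection (ℝ ∙ m)ᗮ) y - (Submodule.reflection (ℝ ∙ p)ᗮ) y‖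
      ≤ 8 * ‖m - p‖ / ‖p‖ * ‖y‖ := by
  have hm' : 0 < ‖m‖ := norm_pos_iff.2 hm
  have hp' : 0 < ‖p‖ := norm_pos_iff.2 hp
  rw [Submodule.reflection_orthogonal_apply, Submodule.reflection_orthogonal_apply,
    Submodule.reflection_singleton_apply, Submodule.reflection_singleton_apply]
  set a : E := (‖m‖⁻¹) • m with ha
  set b : E := (‖p‖⁻¹) • p with hb
  have hna : ‖a‖ = 1 := by
    rw [ha, norm_smul, norm_inv, norm_norm, inv_mul_cancel₀ hm'.ne']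
  have hnb : ‖b‖ = 1 := by
    rw [hb, norm_smul, norm_inv, norm_norm, inv_mul_cancel₀ hp'.ne']
  have e1 : (inner ℝ m y / ((‖m‖ : ℝ) ^ 2)) • m = (inner ℝ a y) • a := by
    rw [ha, real_inner_smul_left, smul_smul]
    congr 1
    field_simp
  have e2 : (inner ℝ p y / ((‖p‖ : ℝ) ^ 2)) • p = (inner ℝ b y) • b := by
    rw [hb, real_inner_smul_left, smul_smul]
    congr 1
    field_simp
  have hab : ‖a - b‖ ≤ 2 * ‖m - p‖ / ‖p‖ := by
    have h1 : a - b = (‖p‖⁻¹) • (m - p) + (‖m‖⁻¹ - ‖p‖⁻¹) • m := by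
      rw [ha, hb, smul_sub, sub_smul]; abel
    have h2 : ‖(‖m‖⁻¹ - ‖p‖⁻¹) • m‖ ≤ ‖m - p‖ / ‖p‖ := by
      rw [norm_smul]
      have h3 : (‖m‖⁻¹ - ‖p‖⁻¹) = (‖p‖ - ‖m‖) / (‖m‖ * ‖p‖) := by field_simp
      rw [h3, Real.norm_eq_abs, abs_div, abs_of_pos (mul_pos hm' hp')]
      have h4 : |‖p‖ - ‖m‖| ≤ ‖m - p‖ := by
        rw [← norm_neg (m - p), neg_sub]; exact abs_norm_sub_norm_le p m
      rw [div_mul_eq_mul_div, div_le_div_iff₀ (mul_pos hm' hp') hp']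
      calc |‖p‖ - ‖m‖| * ‖m‖ * ‖p‖ ≤ ‖m - p‖ * ‖m‖ * ‖p‖ := by gcongr
        _ = ‖m - p‖ * (‖m‖ * ‖p‖) := by ring
    rw [h1]
    calc ‖(‖p‖⁻¹) • (m - p) + (‖m‖⁻¹ - ‖p‖⁻¹) • m‖
        ≤ ‖(‖p‖⁻¹) • (m - p)‖ + ‖(‖m‖⁻¹ - ‖p‖⁻¹) • m‖ := norm_add_le _ _
      _ ≤ ‖m - p‖ / ‖p‖ + ‖m - p‖ / ‖p‖ := by
          refine add_le_add ?_ h2
          rw [norm_smul, norm_inv, norm_norm, inv_mul_eq_div]
      _ = 2 * ‖m - p‖ / ‖p‖ := by ring
  have e3 : -(2 • (inner ℝ m y / ((‖m‖ : ℝ) ^ 2)) • m - y)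
      - -(2 • (inner ℝ p y / ((‖p‖ : ℝ) ^ 2)) • p - y)
      = (2 : ℝ) • ((inner ℝ (b - a) y) • b + (inner ℝ a y) • (b - a)) := by
    rw [e1, e2, inner_sub_left, sub_smul, smul_sub, two_smul, two_smul, two_smul]
    abel
  have e4 : ‖-(2 • (inner ℝ m y / ((‖m‖ : ℝ) ^ 2)) • m - y)
      - -(2 • (inner ℝ p y / ((‖p‖ : ℝ) ^ 2)) • p - y)‖ ≤ 4 * ‖a - b‖ * ‖y‖ := by
    rw [e3, norm_smul]
    have h5 : ‖(inner ℝ (b - a) y) • b‖ ≤ ‖a - b‖ * ‖y‖ := by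
      rw [norm_smul, hnb, mul_one, norm_sub_rev a b]
      exact norm_inner_le_norm _ _
    have h6 : ‖(inner ℝ a y) • (b - a)‖ ≤ ‖a - b‖ * ‖y‖ := by
      rw [norm_smul, norm_sub_rev b a]
      have : ‖inner ℝ a y‖ ≤ ‖a‖ * ‖y‖ := norm_inner_le_norm _ _
      rw [hna, one_mul] at this
      calc ‖inner ℝ a y‖ * ‖a - b‖ ≤ ‖y‖ * ‖a - b‖ := by gcongr
        _ = _ := mul_comm _ _
    have h7 := norm_add_le ((inner ℝ (b - a) y) • b) ((inner ℝ a y) • (b - a))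
    have h8 : ‖(2 : ℝ)‖ = 2 := by norm_num
    rw [h8]
    nlinarith
  refine e4.trans ?_
  have : 4 * ‖a - b‖ * ‖y‖ ≤ 4 * (2 * ‖m - p‖ / ‖p‖) * ‖y‖ := by gcongr
  refine this.trans (le_of_eq ?_)
  ring

theorem det_reflection_orthogonal_singleton (u : E) (hu : u ≠ 0) :
    LinearMap.det (Submodule.reflection (ℝ ∙ u)ᗮ).toLinearMap = -1 := by
  rw [Submodule.det_reflection, Submodule.orthogonal_orthogonal, finrank_span_singleton hu, pow_one]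

/-- A rotation carrying `p` to `q`, close to the identity when `q` is close to `p`. -/
theorem exists_rotation (p q : E) (h : ‖p‖ = ‖q‖) (hp : p ≠ 0) (hpq : p + q ≠ 0) :
    ∃ T : E ≃ₗᵢ[ℝ] E, LinearMap.det T.toLinearMap = 1 ∧ T p = q ∧
      ∀ x, ‖T x - x‖ ≤ 4 * ‖q - p‖ / ‖p‖ * ‖x‖ := by
  have hu : -p - q ≠ 0 := by
    intro h0
    apply hpq
    have : -(-p - q) = 0 := by rw [h0, neg_zero]
    rw [← this]; abel
  set R1 := Submodule.reflection (ℝ ∙ p)ᗮ with hR1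
  set R2 := Submodule.reflection (ℝ ∙ (-p - q))ᗮ with hR2
  refine ⟨R1.trans R2, ?_, ?_, ?_⟩
  · have : (R1.trans R2).toLinearMap = R2.toLinearMap ∘ₗ R1.toLinearMap := rfl
    rw [this, LinearMap.det_comp, hR1, hR2, det_reflection_orthogonal_singleton _ hp,
      det_reflection_orthogonal_singleton _ hu]
    norm_num
  · show R2 (R1 p) = q
    rw [hR1, Submodule.reflection_orthogonalComplement_singleton_eq_neg, hR2]
    exact Submodule.reflection_sub (by rw [norm_neg]; exact h)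
  · intro x
    show ‖R2 (R1 x) - x‖ ≤ _
    have h1 : x = R1 (R1 x) := by rw [hR1]; simp
    -- replace the vector `-p - q` by the midpoint of `p` and `q`
    have h2 : R2 = Submodule.reflection (ℝ ∙ ((2 : ℝ)⁻¹ • (p + q)))ᗮ := by
      have : (ℝ ∙ (-p - q)) = (ℝ ∙ ((2 : ℝ)⁻¹ • (p + q))) := by
        have h3 : (-p - q) = (-2 : ℝ) • ((2 : ℝ)⁻¹ • (p + q)) := by
          rw [smul_smul]; norm_num; abel
        rw [h3]
        exact Submodule.span_singleton_smul_eq (IsUnit.mk0 _ (by norm_num)) _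
      rw [hR2]
      simp only [this]
    have h3 : (2 : ℝ)⁻¹ • (p + q) ≠ 0 := smul_ne_zero (by norm_num) hpq
    have h4 : ‖R2 (R1 x) - R1 (R1 x)‖ ≤ 8 * ‖(2 : ℝ)⁻¹ • (p + q) - p‖ / ‖p‖ * ‖R1 x‖ := by
      rw [h2]
      exact norm_reflection_sub_le _ _ _ h3 hp
    rw [← h1] at h4
    refine h4.trans (le_of_eq ?_)
    rw [LinearIsometryEquiv.norm_map]
    have h5 : (2 : ℝ)⁻¹ • (p + q) - p = (2 : ℝ)⁻¹ • (q - p) := by
      rw [smul_add, smul_sub]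
      have : p = (2 : ℝ)⁻¹ • p + (2 : ℝ)⁻¹ • p := by
        rw [← add_smul]; norm_num
      nth_rewrite 2 [this]
      abel
    have h6 : ‖(2 : ℝ)⁻¹‖ = 2⁻¹ := by norm_num
    rw [h5, norm_smul, h6]
    ring

/-- If `V ≠ ⊤` and `v₀ ≠ 0`, some rotation carries `v₀` into `Vᗮ`. -/
theorem exists_rotation_orthogonal (V : Submodule ℝ E) (hV : V ≠ ⊤) (v₀ : E) (hv₀ : v₀ ≠ 0) :
    ∃ (G : E ≃ₗᵢ[ℝ] E) (n : E), LinearMap.det G.toLinearMap = 1 ∧ n ∈ Vᗮ ∧ ‖n‖ = 1 ∧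
      G v₀ = ‖v₀‖ • n := by
  have h1 : Vᗮ ≠ ⊥ := by
    intro h
    exact hV ((Submodule.orthogonal_eq_bot_iff).1 h)
  obtain ⟨m, hm, hm0⟩ := Submodule.exists_mem_ne_zero_of_ne_bot h1
  set n : E := ‖m‖⁻¹ • m with hn
  have hnV : n ∈ Vᗮ := Submodule.smul_mem _ _ hm
  have hnn : ‖n‖ = 1 := by
    rw [hn, norm_smul, norm_inv, norm_norm, inv_mul_cancel₀ (norm_ne_zero_iff.2 hm0)]
  by_cases h : v₀ + ‖v₀‖ • n = 0
  · refine ⟨1, -n, ?_, Submodule.neg_mem _ hnV, by rw [norm_neg, hnn], ?_⟩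
    · exact LinearMap.det_id
    · show v₀ = ‖v₀‖ • (-n)
      rw [smul_neg]
      exact eq_neg_of_add_eq_zero_left h
  · obtain ⟨T, hT1, hT2, -⟩ := exists_rotation v₀ (‖v₀‖ • n)
      (by rw [norm_smul, hnn, mul_one, norm_norm]) hv₀ h
    exact ⟨T, n, hT1, hnV, hnn, hT2⟩

/-- Adjusting a rotation so that the `V`-component of the image of `v` is prescribed. -/
theorem exists_rotation_adjust (V : Submodule ℝ E) (G₀ : E ≃ₗᵢ[ℝ] E) (n v₀ v y : E)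
    (hG₀ : LinearMap.det G₀.toLinearMap = 1) (hn : n ∈ Vᗮ) (hn1 : ‖n‖ = 1)
    (hGv : G₀ v₀ = ‖v₀‖ • n) (hy : y ∈ V) (hv : v ≠ 0) (hyv : ‖y‖ ≤ ‖v‖)
    (hsmall : 2 * ‖y‖ + 2 * ‖v - v₀‖ < 2 * ‖v‖) :
    ∃ G : E ≃ₗᵢ[ℝ] E, LinearMap.det G.toLinearMap = 1 ∧ V.starProjection (G v) = y ∧
      ∀ x, ‖G x - G₀ x‖ ≤ 8 * (‖y‖ + ‖v - v₀‖) / ‖v‖ * ‖x‖ := by
  set s : ℝ := Real.sqrt (‖v‖ ^ 2 - ‖y‖ ^ 2) with hs
  have hvy : 0 ≤ ‖v‖ ^ 2 - ‖y‖ ^ 2 := by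
    have := norm_nonneg y
    nlinarith
  have hs2 : s ^ 2 = ‖v‖ ^ 2 - ‖y‖ ^ 2 := Real.sq_sqrt hvy
  have hs0 : 0 ≤ s := Real.sqrt_nonneg _
  set q : E := y + s • n with hq
  have hyn : inner ℝ y n = 0 := (Submodule.mem_orthogonal V n).1 hn y hy
  have hqn : ‖q‖ = ‖v‖ := by
    have h1 : ‖q‖ ^ 2 = ‖v‖ ^ 2 := by
      rw [hq, norm_add_sq_real, real_inner_smul_right, hyn, norm_smul, hn1, Real.norm_eq_abs,
        mul_one, sq_abs, hs2]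
      ring
    have h2 := norm_nonneg q
    have h3 := norm_nonneg v
    nlinarith [sq_nonneg (‖q‖ - ‖v‖), sq_nonneg (‖q‖ + ‖v‖), (pow_left_inj₀ h2 h3 (by norm_num : (2:ℕ) ≠ 0)).1 h1]
  have hproj : V.starProjection q = y := by
    refine Submodule.eq_starProjection_of_mem_orthogonal' hy (Submodule.smul_mem _ s hn) hq
  set p : E := G₀ v with hp
  have hpn : ‖p‖ = ‖v‖ := by rw [hp, LinearIsometryEquiv.norm_map]
  have hsv : ‖v‖ - s ≤ ‖y‖ := by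
    have h2 := norm_nonneg y
    have h3 := norm_nonneg v
    by_contra hcon
    push Not at hcon
    have h4 : s < ‖v‖ - ‖y‖ := by linarith
    have h5 : s ^ 2 < (‖v‖ - ‖y‖) ^ 2 := by
      apply pow_lt_pow_left₀ h4 hs0 (by norm_num)
    nlinarith
  have hsv' : s ≤ ‖v‖ := by
    have h3 := norm_nonneg v
    by_contra hcon
    push Not at hcon
    have : ‖v‖ ^ 2 < s ^ 2 := pow_lt_pow_left₀ hcon h3 (by norm_num)
    nlinarith [sq_nonneg ‖y‖]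
  have hqp : ‖q - p‖ ≤ 2 * ‖y‖ + 2 * ‖v - v₀‖ := by
    have h1 : q - p = y + (s - ‖v‖) • n + (‖v‖ - ‖v₀‖) • n + G₀ (v₀ - v) := by
      rw [map_sub, hGv, hq, hp, sub_smul, sub_smul]; abel
    rw [h1]
    have h2 : ‖(s - ‖v‖) • n‖ ≤ ‖y‖ := by
      rw [norm_smul, hn1, mul_one, Real.norm_eq_abs, abs_le]
      constructor <;> linarith [norm_nonneg y]
    have h3 : ‖(‖v‖ - ‖v₀‖) • n‖ ≤ ‖v - v₀‖ := by
      rw [norm_smul, hn1, mul_one, Real.norm_eq_abs]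
      exact abs_norm_sub_norm_le v v₀
    have h4 : ‖G₀ (v₀ - v)‖ = ‖v - v₀‖ := by
      rw [LinearIsometryEquiv.norm_map, norm_sub_rev]
    have h5 := norm_add_le (y + (s - ‖v‖) • n + (‖v‖ - ‖v₀‖) • n) (G₀ (v₀ - v))
    have h6 := norm_add_le (y + (s - ‖v‖) • n) ((‖v‖ - ‖v₀‖) • n)
    have h7 := norm_add_le y ((s - ‖v‖) • n)
    linarith
  have hp0 : p ≠ 0 := by
    intro h
    have : ‖p‖ = 0 := by rw [h, norm_zero]
    rw [hpn, norm_eq_zero] at this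
    exact hv this
  have hpq0 : p + q ≠ 0 := by
    intro h
    have h1 : q = -p := (neg_eq_of_add_eq_zero_right h).symm
    have h2 : q - p = (-2 : ℝ) • p := by
      rw [h1, neg_smul, two_smul]; abel
    have h3 : ‖q - p‖ = 2 * ‖p‖ := by
      rw [h2, norm_smul]; norm_num
    rw [hpn] at h3
    linarith
  obtain ⟨T, hT1, hT2, hT3⟩ := exists_rotation p q (by rw [hpn, hqn]) hp0 hpq0
  refine ⟨G₀.trans T, ?_, ?_, ?_⟩
  · have : (G₀.trans T).toLinearMap = T.toLinearMap ∘ₗ G₀.toLinearMap := rfl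
    rw [this, LinearMap.det_comp, hT1, hG₀, mul_one]
  · show V.starProjection (T (G₀ v)) = y
    rw [← hp, hT2, hproj]
  · intro x
    show ‖T (G₀ x) - G₀ x‖ ≤ _
    refine (hT3 (G₀ x)).trans ?_
    rw [hpn, LinearIsometryEquiv.norm_map G₀ x]
    have hv' : 0 < ‖v‖ := norm_pos_iff.2 hv
    have : 4 * ‖q - p‖ / ‖v‖ ≤ 8 * (‖y‖ + ‖v - v₀‖) / ‖v‖ := by
      rw [div_le_div_iff_of_pos_right hv']
      linarith
    exact mul_le_mul_of_nonneg_right this (norm_nonneg x)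

end Pool.Agent.Helper98_Assouad
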