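import Mathlib
import Pool.Agent.Helper98_Assouad.Rotation

/-!
# Words of an iterated function system of similarities
-/

open Module

namespace Pool.Agent.Helper98_Assouad

variable {E : Type*} [NormedAddCommGroup E] [InnerProductSpace ℝ E]

/-- Recurrence: some large power of an isometry is close to the identity. -/
theorem exists_pow_close [FiniteDimensional ℝ E] (g : E ≃ₗᵢ[ℝ] E) {ε : ℝ} (hε : 0 < ε) (M : ℕ) :
    ∃ m, M ≤ m ∧ ∀ x, ‖(g ^ m) x - x‖ ≤ ε * ‖x‖ := by
  let f : ℕ → (E →L[ℝ] E) := fun n => ((g ^ n : E ≃ₗᵢ[ℝ] E) : E →L[ℝ] E)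
  have hf : ∀ n x, f n x = (g ^ n) x := fun n x => rfl
  have hmem : ∀ n, f n ∈ Metric.closedBall (0 : E →L[ℝ] E) 1 := by
    intro n
    rw [mem_closedBall_zero_iff]
    refine ContinuousLinearMap.opNorm_le_bound _ zero_le_one fun x => ?_
    rw [hf, LinearIsometryEquiv.norm_map, one_mul]
  have : ProperSpace (E →L[ℝ] E) := FiniteDimensional.proper ℝ _
  obtain ⟨a, -, φ, hφ, hlim⟩ := (isCompact_closedBall (0 : E →L[ℝ] E) 1).tendsto_subseq hmem
  have hcauchy : CauchySeq (f ∘ φ) := hlim.cauchySeq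
  obtain ⟨N, hN⟩ := Metric.cauchySeq_iff.1 hcauchy ε hε
  -- choose `l` with `φ l ≥ φ N + M`
  set l := φ N + M + N with hl
  have hlN : N ≤ l := by omega
  have hφl : φ N + M ≤ φ l := by
    have := hφ.id_le l
    simp only [id] at this
    omega
  refine ⟨φ l - φ N, by omega, fun x => ?_⟩
  have hd : ‖f (φ l) - f (φ N)‖ < ε := by
    have := hN l hlN N le_rfl
    rwa [dist_eq_norm] at this
  have h1 : (g ^ (φ N)) ((g ^ (φ l - φ N)) x - x) = (f (φ l) - f (φ N)) x := by
    rw [map_sub, sub_apply, hf, hf]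
    congr 1
    have : g ^ (φ l) = g ^ (φ N) * g ^ (φ l - φ N) := by
      rw [← pow_add]; congr 1; omega
    rw [this]
    rfl
  calc ‖(g ^ (φ l - φ N)) x - x‖ = ‖(g ^ (φ N)) ((g ^ (φ l - φ N)) x - x)‖ := by
        rw [LinearIsometryEquiv.norm_map]
    _ = ‖(f (φ l) - f (φ N)) x‖ := by rw [h1]
    _ ≤ ‖f (φ l) - f (φ N)‖ * ‖x‖ := ContinuousLinearMap.le_opNorm _ _
    _ ≤ ε * ‖x‖ := by gcongr

variable {ι : Type*} (c : ι → ℝ) (O : ι → E ≃ₗᵢ[ℝ] E) (t : ι → E)

/-- Contraction ratio of a word. -/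
def ratio (w : List ι) : ℝ := (w.map c).prod

/-- Orthogonal part of a word. -/
def rot (w : List ι) : E ≃ₗᵢ[ℝ] E := (w.map O).prod

/-- The similarity attached to a word. -/
def act : List ι → E → E
  | [], z => z
  | i :: w, z => c i • O i (act w z) + t i

theorem act_cons (i : ι) (w : List ι) (z : E) :
    act c O t (i :: w) z = c i • O i (act c O t w z) + t i := rfl

theorem ratio_append (u w : List ι) : ratio c (u ++ w) = ratio c u * ratio c w := by
  simp [ratio]

theorem rot_append (u w : List ι) : rot O (u ++ w) = rot O u * rot O w := by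
  simp [rot]

theorem act_append (u w : List ι) (z : E) :
    act c O t (u ++ w) z = act c O t u (act c O t w z) := by
  induction u with
  | nil => rfl
  | cons i u ih => rw [List.cons_append, act_cons, act_cons, ih]

theorem act_sub (w : List ι) (z z' : E) :
    act c O t w z - act c O t w z' = ratio c w • rot O w (z - z') := by
  induction w with
  | nil => simp [act, ratio, rot]
  | cons i w ih =>
    rw [act_cons, act_cons, add_sub_add_right_eq_sub, ← smul_sub, ← map_sub, ih]
    simp only [ratio, rot, List.map_cons, List.prod_cons, map_smul, smul_smul]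
    rfl

variable {c}

theorem ratio_pos (hc : ∀ i, 0 < c i) (w : List ι) : 0 < ratio c w := by
  unfold ratio
  apply List.prod_pos
  intro a ha
  obtain ⟨i, -, rfl⟩ := List.mem_map.1 ha
  exact hc i

theorem ratio_le_one (hc : ∀ i, 0 < c i ∧ c i < 1) (w : List ι) : ratio c w ≤ 1 := by
  induction w with
  | nil => simp [ratio]
  | cons i w ih =>
    have h : ratio c (i :: w) = c i * ratio c w := by simp [ratio]
    rw [h]
    have := ratio_pos (fun i => (hc i).1) w
    have h2 := (hc i).2
    have h1 := (hc i).1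
    nlinarith

theorem ratio_le_pow {cm : ℝ} (hc : ∀ i, 0 < c i ∧ c i ≤ cm) (w : List ι) :
    ratio c w ≤ cm ^ w.length := by
  induction w with
  | nil => simp [ratio]
  | cons i w ih =>
    have h : ratio c (i :: w) = c i * ratio c w := by simp [ratio]
    rw [h, List.length_cons, pow_succ, mul_comm]
    have := ratio_pos (fun i => (hc i).1) w
    exact mul_le_mul ih (hc i).2 (hc i).1.le (by
      have : 0 ≤ cm := (hc i).1.le.trans (hc i).2
      positivity)

variable (c)

theorem act_mem {F : Set E} (hF : ∀ i, ∀ z ∈ F, c i • O i z + t i ∈ F) (w : List ι) {z : E}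
    (hz : z ∈ F) : act c O t w z ∈ F := by
  induction w with
  | nil => exact hz
  | cons i w ih => exact hF i _ ih

theorem exists_word_length {F : Set E} (hF : F ⊆ ⋃ i, (fun z => c i • O i z + t i) '' F)
    (n : ℕ) : ∀ x ∈ F, ∃ w : List ι, w.length = n ∧ ∃ z ∈ F, x = act c O t w z := by
  induction n with
  | zero => exact fun x hx => ⟨[], rfl, x, hx, rfl⟩
  | succ n ih =>
    intro x hx
    obtain ⟨i, z, hz, rfl⟩ := Set.mem_iUnion.1 (hF hx)
    obtain ⟨w, hw, z', hz', rfl⟩ := ih z hz
    exact ⟨i :: w, by simp [hw], z', hz', rfl⟩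

/-- Small cylinders near any point of the attractor. -/
theorem exists_word_near [Finite ι] {F : Set E} (hc : ∀ i, 0 < c i ∧ c i < 1)
    (hF : F ⊆ ⋃ i, (fun z => c i • O i z + t i) '' F) {D : ℝ} (hD : ∀ z ∈ F, ∀ z' ∈ F, ‖z - z'‖ ≤ D)
    {x : E} (hx : x ∈ F) {r : ℝ} (hr : 0 < r) :
    ∃ w : List ι, ∀ z ∈ F, ‖act c O t w z - x‖ < r := by
  classical
  have : Nonempty ι := by
    obtain ⟨i, -⟩ := Set.mem_iUnion.1 (hF hx)
    exact ⟨i⟩
  obtain ⟨i₀, hi₀⟩ := Finite.exists_max c
  have hD0 : 0 ≤ D := (norm_nonneg _).trans (hD x hx x hx)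
  obtain ⟨n, hn⟩ := exists_pow_lt_of_lt_one (show 0 < r / (D + 1) by positivity) (hc i₀).2
  obtain ⟨w, hw, z₀, hz₀, rfl⟩ := exists_word_length c O t hF n x hx
  refine ⟨w, fun z hz => ?_⟩
  rw [act_sub, norm_smul, LinearIsometryEquiv.norm_map, Real.norm_eq_abs,
    abs_of_pos (ratio_pos (fun i => (hc i).1) w)]
  have h1 : ratio c w ≤ (c i₀) ^ n := by
    rw [← hw]
    exact ratio_le_pow (fun i => ⟨(hc i).1, hi₀ i⟩) w
  have h2 : ratio c w < r / (D + 1) := h1.trans_lt hn
  have h3 := ratio_pos (fun i => (hc i).1) w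
  calc ratio c w * ‖z - z₀‖ ≤ ratio c w * D := by
        gcongr; exact hD z hz z₀ hz₀
    _ ≤ ratio c w * (D + 1) := by nlinarith
    _ < r / (D + 1) * (D + 1) := by gcongr
    _ = r := by field_simp

/-- The set of isometries approximable by words contains the rotations. -/
theorem exists_word_rot_close [FiniteDimensional ℝ E]
    (hdense : ∀ R : E ≃ₗᵢ[ℝ] E, LinearMap.det R.toLinearMap = 1 → ∀ ε > 0,
      ∃ g ∈ Subgroup.closure (Set.range O), ∀ x, ‖g x - R x‖ ≤ ε * ‖x‖)
    (R : E ≃ₗᵢ[ℝ] E) (hR : LinearMap.det R.toLinearMap = 1) {ε : ℝ} (hε : 0 < ε) :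
    ∃ w : List ι, ∀ x, ‖rot O w x - R x‖ ≤ ε * ‖x‖ := by
  -- every element of the group generated by the `O i` is approximable by words
  have key : ∀ g ∈ Subgroup.closure (Set.range O), ∀ ε > (0 : ℝ), ∃ w : List ι,
      ∀ x, ‖rot O w x - g x‖ ≤ ε * ‖x‖ := by
    intro g hg
    induction hg using Subgroup.closure_induction with
    | mem g hg =>
      obtain ⟨i, rfl⟩ := hg
      intro ε hε
      refine ⟨[i], fun x => ?_⟩
      have : rot O [i] = O i := by simp [rot]
      rw [this, sub_self, norm_zero]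
      positivity
    | one =>
      intro ε hε
      refine ⟨[], fun x => ?_⟩
      have : rot O ([] : List ι) = 1 := by simp [rot]
      rw [this, sub_self, norm_zero]
      positivity
    | mul g h _ _ ihg ihh =>
      intro ε hε
      obtain ⟨u, hu⟩ := ihg (ε / 2) (by positivity)
      obtain ⟨v, hv⟩ := ihh (ε / 2) (by positivity)
      refine ⟨u ++ v, fun x => ?_⟩
      rw [rot_append]
      have h1 : (rot O u * rot O v) x - (g * h) x
          = (rot O u (rot O v x) - g (rot O v x)) + g (rot O v x - h x) := by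
        rw [map_sub]
        show rot O u (rot O v x) - g (h x) = _
        abel
      rw [h1]
      calc ‖(rot O u (rot O v x) - g (rot O v x)) + g (rot O v x - h x)‖
          ≤ ‖rot O u (rot O v x) - g (rot O v x)‖ + ‖g (rot O v x - h x)‖ := norm_add_le _ _
        _ ≤ ε / 2 * ‖rot O v x‖ + ε / 2 * ‖x‖ := by
            rw [LinearIsometryEquiv.norm_map]
            exact add_le_add (hu _) (hv _)
        _ = ε * ‖x‖ := by rw [LinearIsometryEquiv.norm_map]; ring
    | inv g _ ih =>
      intro ε hε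
      obtain ⟨u, hu⟩ := ih (ε / 2) (by positivity)
      obtain ⟨m, hm1, hm⟩ := exists_pow_close (rot O u) (show 0 < ε / 2 by positivity) 1
      obtain ⟨n, rfl⟩ : ∃ n, m = n + 1 := ⟨m - 1, by omega⟩
      have hrep : ∀ n : ℕ, rot O (List.replicate n u).flatten = (rot O u) ^ n := by
        intro n
        induction n with
        | zero => simp [rot]
        | succ n ih => rw [List.replicate_succ, List.flatten_cons, rot_append, ih, pow_succ']
      refine ⟨(List.replicate n u).flatten, fun x => ?_⟩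
      rw [hrep]
      -- write `x = g y`
      obtain ⟨y, rfl⟩ : ∃ y, g y = x := ⟨g⁻¹ x, by
        show (g * g⁻¹) x = x
        rw [mul_inv_cancel]; rfl⟩
      have h0 : g⁻¹ (g y) = y := by
        show (g⁻¹ * g) y = y
        rw [inv_mul_cancel]; rfl
      rw [h0]
      have h1 : ((rot O u) ^ n) (g y) - y
          = (((rot O u) ^ (n + 1)) y - y) - ((rot O u) ^ n) (rot O u y - g y) := by
        rw [map_sub, pow_succ]
        show ((rot O u) ^ n) (g y) - y
          = ((rot O u) ^ n) (rot O u y) - y - (((rot O u) ^ n) (rot O u y) - ((rot O u) ^ n) (g y))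
        abel
      rw [h1]
      calc _ ≤ ‖((rot O u) ^ (n + 1)) y - y‖ + ‖((rot O u) ^ n) (rot O u y - g y)‖ :=
            norm_sub_le _ _
        _ ≤ ε / 2 * ‖y‖ + ε / 2 * ‖y‖ := by
            rw [LinearIsometryEquiv.norm_map]
            exact add_le_add (hm y) (hu y)
        _ = ε * ‖g y‖ := by rw [LinearIsometryEquiv.norm_map]; ring
  obtain ⟨g, hg, hgR⟩ := hdense R hR (ε / 2) (by positivity)
  obtain ⟨w, hw⟩ := key g hg (ε / 2) (by positivity)
  refine ⟨w, fun x => ?_⟩
  calc ‖rot O w x - R x‖ = ‖(rot O w x - g x) + (g x - R x)‖ := by congr 1; abel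
    _ ≤ ‖rot O w x - g x‖ + ‖g x - R x‖ := norm_add_le _ _
    _ ≤ ε / 2 * ‖x‖ + ε / 2 * ‖x‖ := add_le_add (hw x) (hgR x)
    _ = ε * ‖x‖ := by ring

/-- Pairs of words with equal ratio, orthogonal parts close to the identity, small ratio and separated
cylinders. -/
theorem exists_pair [FiniteDimensional ℝ E] [Finite ι] {F : Set E} (hc : ∀ i, 0 < c i ∧ c i < 1)
    (hF : F = ⋃ i, (fun z => c i • O i z + t i) '' F) {D : ℝ} (hD : ∀ z ∈ F, ∀ z' ∈ F, ‖z - z'‖ ≤ D)
    {x y : E} (hx : x ∈ F) (hy : y ∈ F) (hxy : x ≠ y) :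
    ∃ r > 0, ∀ ε > 0, ∃ a b : List ι, ratio c a = ratio c b ∧ ratio c a ≤ ε ∧
      (∀ z, ‖rot O a z - z‖ ≤ ε * ‖z‖) ∧ (∀ z, ‖rot O b z - z‖ ≤ ε * ‖z‖) ∧
      ∀ z ∈ F, r ≤ ‖act c O t a z - act c O t b z‖ := by
  have hmem : ∀ i, ∀ z ∈ F, c i • O i z + t i ∈ F := by
    intro i z hz
    rw [hF]
    exact Set.mem_iUnion.2 ⟨i, z, hz, rfl⟩
  have hxy' : 0 < ‖x - y‖ := norm_pos_iff.2 (sub_ne_zero.2 hxy)
  obtain ⟨u, hu⟩ := exists_word_near c O t hc hF.subset hD hx (show 0 < ‖x - y‖ / 4 by positivity)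
  obtain ⟨v, hv⟩ := exists_word_near c O t hc hF.subset hD hy (show 0 < ‖x - y‖ / 4 by positivity)
  have hu0 : u ≠ [] := by
    rintro rfl
    have h1 := hu y hy
    have : act c O t ([] : List ι) y = y := rfl
    rw [this, norm_sub_rev] at h1
    linarith
  refine ⟨‖x - y‖ / 2, by positivity, fun ε hε => ?_⟩
  set g := rot O (u ++ v) with hg
  have hratio : ratio c (u ++ v) < 1 := by
    rw [ratio_append]
    have h1 : ratio c u < 1 := by
      obtain ⟨i, u', rfl⟩ := List.exists_cons_of_ne_nil hu0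
      have h : ratio c (i :: u') = c i * ratio c u' := by simp [ratio]
      rw [h]
      have h2 := ratio_le_one hc u'
      have h3 := ratio_pos (fun i => (hc i).1) u'
      have h4 := (hc i).1
      have h5 := (hc i).2
      nlinarith
    have h2 := ratio_le_one hc v
    have h3 := ratio_pos (fun i => (hc i).1) u
    have h4 := ratio_pos (fun i => (hc i).1) v
    nlinarith
  have hratio0 : 0 < ratio c (u ++ v) := ratio_pos (fun i => (hc i).1) _
  obtain ⟨M, hM⟩ := exists_pow_lt_of_lt_one hε hratio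
  obtain ⟨m, hmM, hm⟩ := exists_pow_close g hε (M + 1)
  have hrepr : ∀ (w : List ι) (n : ℕ), rot O (List.replicate n w).flatten = (rot O w) ^ n := by
    intro w n
    induction n with
    | zero => simp [rot]
    | succ n ih => rw [List.replicate_succ, List.flatten_cons, rot_append, ih, pow_succ']
  have hrepc : ∀ (w : List ι) (n : ℕ), ratio c (List.replicate n w).flatten = (ratio c w) ^ n := by
    intro w n
    induction n with
    | zero => simp [ratio]
    | succ n ih => rw [List.replicate_succ, List.flatten_cons, ratio_append, ih, pow_succ']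
  obtain ⟨n, rfl⟩ : ∃ n, m = n + 1 := ⟨m - 1, by omega⟩
  have hcomm : ratio c (v ++ u) = ratio c (u ++ v) := by
    rw [ratio_append, ratio_append, mul_comm]
  refine ⟨(List.replicate (n + 1) (u ++ v)).flatten, (List.replicate (n + 1) (v ++ u)).flatten,
    ?_, ?_, ?_, ?_, ?_⟩
  · rw [hrepc, hrepc, hcomm]
  · rw [hrepc]
    have : (ratio c (u ++ v)) ^ (n + 1) ≤ (ratio c (u ++ v)) ^ M :=
      pow_le_pow_of_le_one hratio0.le hratio.le (by omega)
    exact this.trans hM.le
  · intro z
    rw [hrepr]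
    exact hm z
  · intro z
    rw [hrepr]
    -- `rot (v ++ u)` is conjugate to `rot (u ++ v)`
    have hconj : rot O (v ++ u) = rot O v * g * (rot O v)⁻¹ := by
      rw [hg, rot_append, rot_append]
      group
    rw [hconj, conj_pow]
    set y' := (rot O v)⁻¹ z with hy'
    have hz : z = rot O v y' := by
      rw [hy']
      show z = (rot O v * (rot O v)⁻¹) z
      rw [mul_inv_cancel]; rfl
    have h1 : (rot O v * g ^ (n + 1) * (rot O v)⁻¹) z - z = rot O v ((g ^ (n + 1)) y' - y') := by
      rw [map_sub, ← hz]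
      rfl
    rw [h1, LinearIsometryEquiv.norm_map]
    have h2 : ‖y'‖ = ‖z‖ := by rw [hy', LinearIsometryEquiv.norm_map]
    rw [← h2]
    exact hm y'
  · intro z hz
    have ha : ∃ z' ∈ F, act c O t (List.replicate (n + 1) (u ++ v)).flatten z = act c O t u z' := by
      rw [List.replicate_succ, List.flatten_cons, List.append_assoc, act_append]
      exact ⟨_, act_mem c O t hmem _ hz, rfl⟩
    have hb : ∃ z' ∈ F, act c O t (List.replicate (n + 1) (v ++ u)).flatten z = act c O t v z' := by
      rw [List.replicate_succ, List.flatten_cons, List.append_assoc, act_append]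
      exact ⟨_, act_mem c O t hmem _ hz, rfl⟩
    obtain ⟨z1, hz1, e1⟩ := ha
    obtain ⟨z2, hz2, e2⟩ := hb
    rw [e1, e2]
    have h1 := hu z1 hz1
    have h2 := hv z2 hz2
    have h3 : x - y = (act c O t u z1 - act c O t v z2) - (act c O t u z1 - x)
        + (act c O t v z2 - y) := by abel
    have h4 : ‖x - y‖ ≤ ‖act c O t u z1 - act c O t v z2‖ + ‖act c O t u z1 - x‖
        + ‖act c O t v z2 - y‖ := by
      calc ‖x - y‖ = ‖(act c O t u z1 - act c O t v z2) - (act c O t u z1 - x)
          + (act c O t v z2 - y)‖ := by rw [← h3]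
        _ ≤ _ := (norm_add_le _ _).trans (add_le_add (norm_sub_le _ _) le_rfl)
    linarith

end Pool.Agent.Helper98_Assouad
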