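import Mathlib
import Pool.Agent.Helper98_Assouad.Words

/-!
# Approximate progressions in projections of self-similar sets
-/

open Module

namespace Pool.Agent.Helper98_Assouad

variable {E : Type*} [NormedAddCommGroup E] [InnerProductSpace ℝ E] [FiniteDimensional ℝ E]
variable {ι : Type*} (c : ι → ℝ) (O : ι → E ≃ₗᵢ[ℝ] E) (t : ι → E)

theorem norm_starProjection_le (V : Submodule ℝ E) (z : E) : ‖V.starProjection z‖ ≤ ‖z‖ := by
  exact Submodule.norm_orthogonalProjectionOnto_apply_le V z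

theorem exists_chain [Finite ι] {F : Set E} (hc : ∀ i, 0 < c i ∧ c i < 1)
    (hF : F = ⋃ i, (fun z => c i • O i z + t i) '' F) {D : ℝ} (hD0 : 0 < D)
    (hD : ∀ z ∈ F, ∀ z' ∈ F, ‖z - z'‖ ≤ D)
    {x y : E} (hx : x ∈ F) (hy : y ∈ F) (hxy : x ≠ y)
    (hdense : ∀ R : E ≃ₗᵢ[ℝ] E, LinearMap.det R.toLinearMap = 1 → ∀ ε > 0,
      ∃ g ∈ Subgroup.closure (Set.range O), ∀ x, ‖g x - R x‖ ≤ ε * ‖x‖)
    (V : Submodule ℝ E) (hV : V ≠ ⊤) (N : ℕ) :
    ∀ e : ℕ → E, (∀ i, e i ∈ V) → (∀ i, ‖e i‖ ≤ 1) → ∀ η > (0 : ℝ),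
      ∃ δ > (0 : ℝ), ∃ G : E ≃ₗᵢ[ℝ] E, LinearMap.det G.toLinearMap = 1 ∧
        ∃ P : (ℕ → Bool) → E, (∀ ε, P ε ∈ F) ∧
          ∀ ε, ‖V.starProjection (G (P ε - P (fun _ => false)))
            - δ • ∑ i ∈ Finset.range N, (if ε i then e i else 0)‖ ≤ η * δ := by
  have hmem : ∀ i, ∀ z ∈ F, c i • O i z + t i ∈ F := by
    intro i z hz
    rw [hF]
    exact Set.mem_iUnion.2 ⟨i, z, hz, rfl⟩
  obtain ⟨r, hr, hpair⟩ := exists_pair c O t hc hF hD hx hy hxy
  induction N with
  | zero =>
    intro e _ _ η hη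
    refine ⟨1, one_pos, 1, LinearMap.det_id, fun _ => x, fun _ => hx, fun ε => ?_⟩
    simp only [sub_self, map_zero, Finset.range_zero, Finset.sum_empty, smul_zero, norm_zero]
    positivity
  | succ N ih =>
    intro e heV he1 η hη
    obtain ⟨δ, hδ, G, hG, P, hPF, hP⟩ := ih (fun i => e (i + 1)) (fun i => heV _) (fun i => he1 _)
      (η / 2) (by positivity)
    set ρ : ℝ := η * δ / (2 * D) with hρ
    have hρ0 : 0 < ρ := by positivity
    have hρD : ρ * D = η * δ / 2 := by rw [hρ]; field_simp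
    set ε₀ : ℝ := min (ρ / 4) (min (ρ * r / (32 * (δ + 2 * D))) (r / (2 * (δ + 2 * D)))) with hε₀
    have hε₀0 : 0 < ε₀ := by
      refine lt_min (by positivity) (lt_min (by positivity) (by positivity))
    have hε₀1 : ε₀ ≤ ρ / 4 := min_le_left _ _
    have hε₀2 : ε₀ * (δ + 2 * D) ≤ ρ * r / 32 := by
      have : ε₀ ≤ ρ * r / (32 * (δ + 2 * D)) := (min_le_right _ _).trans (min_le_left _ _)
      calc ε₀ * (δ + 2 * D) ≤ ρ * r / (32 * (δ + 2 * D)) * (δ + 2 * D) := by gcongr
        _ = ρ * r / 32 := by field_simp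
    have hε₀3 : ε₀ * (δ + 2 * D) ≤ r / 2 := by
      have : ε₀ ≤ r / (2 * (δ + 2 * D)) := (min_le_right _ _).trans (min_le_right _ _)
      calc ε₀ * (δ + 2 * D) ≤ r / (2 * (δ + 2 * D)) * (δ + 2 * D) := by gcongr
        _ = r / 2 := by field_simp
    obtain ⟨a, b, hab, haε, ha, hb, hsep⟩ := hpair ε₀ hε₀0
    -- the reference vector and rotation
    set v₀ : E := act c O t a x - act c O t b x with hv₀
    have hv₀r : r ≤ ‖v₀‖ := hsep x hx
    have hv₀0 : v₀ ≠ 0 := norm_pos_iff.1 (hr.trans_le hv₀r)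
    obtain ⟨G₀, n, hG₀, hnV, hn1, hG₀v⟩ := exists_rotation_orthogonal V hV v₀ hv₀0
    -- the word approximating `G₀⁻¹ G`
    obtain ⟨w, hw⟩ := exists_word_rot_close O hdense (G.trans G₀.symm) (by
      have : (G.trans G₀.symm).toLinearMap = G₀.symm.toLinearMap ∘ₗ G.toLinearMap := rfl
      rw [this, LinearMap.det_comp, hG, mul_one]
      have h1 : G₀.symm.toLinearMap ∘ₗ G₀.toLinearMap = LinearMap.id := by
        ext z; simp
      have h2 := congrArg LinearMap.det h1
      rw [LinearMap.det_comp, hG₀, mul_one, LinearMap.det_id] at h2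
      exact h2) (show 0 < ρ / 4 by positivity)
    have hw' : ∀ z, ‖G₀ (rot O w z) - G z‖ ≤ ρ / 4 * ‖z‖ := by
      intro z
      have h1 : G₀ (rot O w z) - G z = G₀ (rot O w z - (G.trans G₀.symm) z) := by
        rw [map_sub]
        simp
      rw [h1, LinearIsometryEquiv.norm_map]
      exact hw z
    set κ := ratio c a with hκ
    set cw := ratio c w with hcw
    have hκ0 : 0 < κ := ratio_pos (fun i => (hc i).1) a
    have hcw0 : 0 < cw := ratio_pos (fun i => (hc i).1) w
    have hcw1 : cw ≤ 1 := ratio_le_one hc w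
    set z₁ := act c O t w (P fun _ => false) with hz₁
    have hz₁F : z₁ ∈ F := act_mem c O t hmem w (hPF _)
    set v : E := act c O t a z₁ - act c O t b z₁ with hv
    have hvr : r ≤ ‖v‖ := hsep z₁ hz₁F
    have hv0 : v ≠ 0 := norm_pos_iff.1 (hr.trans_le hvr)
    have hκ1 : κ ≤ 1 := ratio_le_one hc a
    have hvv₀ : ‖v - v₀‖ ≤ 2 * ε₀ * D := by
      have h1 : v - v₀ = κ • ((rot O a (z₁ - x) - (z₁ - x)) - (rot O b (z₁ - x) - (z₁ - x))) := by
        have h2 : v - v₀ = (act c O t a z₁ - act c O t a x) - (act c O t b z₁ - act c O t b x) := by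
          rw [hv, hv₀]; abel
        rw [h2, act_sub, act_sub, ← hab, ← smul_sub]
        congr 1
        abel
      rw [h1, norm_smul, Real.norm_eq_abs, abs_of_pos hκ0]
      have h2 : ‖z₁ - x‖ ≤ D := hD z₁ hz₁F x hx
      have h3 := norm_sub_le (rot O a (z₁ - x) - (z₁ - x)) (rot O b (z₁ - x) - (z₁ - x))
      have h4 := ha (z₁ - x)
      have h5 := hb (z₁ - x)
      have h6 : ‖rot O a (z₁ - x) - (z₁ - x) - (rot O b (z₁ - x) - (z₁ - x))‖ ≤ 2 * ε₀ * D := by
        have : ε₀ * ‖z₁ - x‖ ≤ ε₀ * D := by gcongr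
        linarith
      calc κ * ‖rot O a (z₁ - x) - (z₁ - x) - (rot O b (z₁ - x) - (z₁ - x))‖
          ≤ 1 * (2 * ε₀ * D) := by gcongr
        _ = _ := one_mul _
    set δ' : ℝ := δ * (κ * cw) with hδ'
    have hδ'0 : 0 < δ' := by positivity
    set y₀ : E := δ' • e 0 with hy₀
    have hy₀V : y₀ ∈ V := Submodule.smul_mem _ _ (heV 0)
    have hy₀n : ‖y₀‖ ≤ δ * ε₀ := by
      rw [hy₀, norm_smul, Real.norm_eq_abs, abs_of_pos hδ'0]
      calc δ' * ‖e 0‖ ≤ δ' * 1 := by gcongr; exact he1 0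
        _ = δ * (κ * cw) := by rw [mul_one]
        _ ≤ δ * (ε₀ * 1) := by gcongr
        _ = δ * ε₀ := by rw [mul_one]
    have hsum : ‖y₀‖ + ‖v - v₀‖ ≤ ε₀ * (δ + 2 * D) := by linarith
    obtain ⟨G', hG', hG'v, hG'G⟩ := exists_rotation_adjust V G₀ n v₀ v y₀ hG₀ hnV hn1 hG₀v hy₀V hv0
      (by linarith [norm_nonneg (v - v₀)]) (by linarith)
    have hG'G₀ : ∀ z, ‖G' z - G₀ z‖ ≤ ρ / 4 * ‖z‖ := by
      intro z
      refine (hG'G z).trans ?_
      have h1 : 8 * (‖y₀‖ + ‖v - v₀‖) / ‖v‖ ≤ ρ / 4 := by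
        rw [div_le_iff₀ (hr.trans_le hvr)]
        nlinarith
      exact mul_le_mul_of_nonneg_right h1 (norm_nonneg z)
    -- the composed rotation is close to `G`
    have hclose : ∀ s : List ι, (∀ z, ‖rot O s z - z‖ ≤ ε₀ * ‖z‖) → ∀ z,
        ‖G' (rot O s (rot O w z)) - G z‖ ≤ ρ * ‖z‖ := by
      intro s hs z
      have h1 : G' (rot O s (rot O w z)) - G z = G' (rot O s (rot O w z) - rot O w z)
          + (G' (rot O w z) - G₀ (rot O w z)) + (G₀ (rot O w z) - G z) := by
        rw [map_sub]; abel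
      rw [h1]
      have h2 := norm_add_le (G' (rot O s (rot O w z) - rot O w z)
          + (G' (rot O w z) - G₀ (rot O w z))) (G₀ (rot O w z) - G z)
      have h3 := norm_add_le (G' (rot O s (rot O w z) - rot O w z))
          (G' (rot O w z) - G₀ (rot O w z))
      have h4 := hs (rot O w z)
      have h5 := hG'G₀ (rot O w z)
      have h6 := hw' z
      rw [LinearIsometryEquiv.norm_map] at h3 h4 h5
      have h7 : ε₀ * ‖z‖ ≤ ρ / 4 * ‖z‖ := mul_le_mul_of_nonneg_right hε₀1 (norm_nonneg z)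
      have h8 : 0 ≤ ρ * ‖z‖ := by positivity
      linarith
    -- the main estimate for one cylinder
    have hmain : ∀ s : List ι, ratio c s = κ → (∀ z, ‖rot O s z - z‖ ≤ ε₀ * ‖z‖) →
        ∀ ε : ℕ → Bool, ‖V.starProjection (G' (act c O t s (act c O t w (P ε)) - act c O t s z₁))
          - δ' • ∑ i ∈ Finset.range N, (if ε i then e (i + 1) else 0)‖ ≤ η * δ' := by
      intro s hsκ hs ε
      set u := P ε - P (fun _ => false) with hu
      have huD : ‖u‖ ≤ D := hD _ (hPF _) _ (hPF _)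
      have h1 : act c O t s (act c O t w (P ε)) - act c O t s z₁
          = (κ * cw) • rot O s (rot O w u) := by
        rw [act_sub, hz₁, act_sub, hsκ, map_smul, smul_smul]
      rw [h1, map_smul, map_smul, hδ', mul_comm δ, mul_smul (κ * cw) δ, ← smul_sub, norm_smul,
        Real.norm_eq_abs, abs_of_pos (mul_pos hκ0 hcw0)]
      have h2 : V.starProjection (G' (rot O s (rot O w u)))
          - δ • ∑ i ∈ Finset.range N, (if ε i then e (i + 1) else 0)
          = V.starProjection (G' (rot O s (rot O w u)) - G u)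
            + (V.starProjection (G u)
              - δ • ∑ i ∈ Finset.range N, (if ε i then e (i + 1) else 0)) := by
        rw [map_sub V.starProjection (G' (rot O s (rot O w u))) (G u)]; abel
      rw [h2]
      have h3 := norm_add_le (V.starProjection (G' (rot O s (rot O w u)) - G u))
        (V.starProjection (G u) - δ • ∑ i ∈ Finset.range N, (if ε i then e (i + 1) else 0))
      have h4 := norm_starProjection_le V (G' (rot O s (rot O w u)) - G u)
      have h5 := hclose s hs u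
      have h6 : ρ * ‖u‖ ≤ ρ * D := by gcongr
      have h7 := hP ε
      rw [← hu] at h7
      calc κ * cw * _ ≤ κ * cw * (η * δ / 2 + η / 2 * δ) := by
            gcongr
            linarith
        _ = η * (κ * cw * δ) := by ring
    refine ⟨δ', hδ'0, G', hG', fun ε => if ε 0 then act c O t a (act c O t w (P fun i => ε (i + 1)))
      else act c O t b (act c O t w (P fun i => ε (i + 1))), ?_, ?_⟩
    · intro ε
      dsimp only
      split_ifs
      · exact act_mem c O t hmem a (act_mem c O t hmem w (hPF _))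
      · exact act_mem c O t hmem b (act_mem c O t hmem w (hPF _))
    · intro ε
      rw [Finset.sum_range_succ']
      simp only [Bool.false_eq_true, if_false]
      by_cases h0 : ε 0 = true
      · simp only [h0, if_true]
        have h1 : act c O t a (act c O t w (P fun i => ε (i + 1)))
            - act c O t b (act c O t w (P fun _ => false))
            = (act c O t a (act c O t w (P fun i => ε (i + 1))) - act c O t a z₁) + v := by
          rw [hv, hz₁]; abel
        rw [h1, map_add, map_add, hG'v, smul_add]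
        have h2 := hmain a hκ.symm ha (fun i => ε (i + 1))
        have h3 : ∀ p q : E, p + y₀ - (q + δ' • e 0) = p - q := by
          intro p q; rw [hy₀]; abel
        rw [h3]
        exact h2
      · simp only [h0, Bool.false_eq_true, if_false, add_zero]
        exact hmain b (by rw [← hab]) hb (fun i => ε (i + 1))

/-- Approximate progressions inside the projected set. -/
theorem exists_progression [Finite ι] {F : Set E} (hc : ∀ i, 0 < c i ∧ c i < 1)
    (hF : F = ⋃ i, (fun z => c i • O i z + t i) '' F) (hFc : IsCompact F) (hF2 : F.Nontrivial)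
    (hdense : ∀ R : E ≃ₗᵢ[ℝ] E, LinearMap.det R.toLinearMap = 1 → ∀ ε > 0,
      ∃ g ∈ Subgroup.closure (Set.range O), ∀ x, ‖g x - R x‖ ≤ ε * ‖x‖)
    (V : Submodule ℝ E) (hV : V ≠ ⊤) (N : ℕ) (e : ℕ → E) (heV : ∀ i, e i ∈ V)
    (he1 : ∀ i, ‖e i‖ ≤ 1) {η : ℝ} (hη : 0 < η) :
    ∃ δ > (0 : ℝ), ∃ P : (ℕ → Bool) → E, (∀ ε, P ε ∈ F) ∧
      ∀ ε, ‖V.starProjection (P ε) - V.starProjection (P (fun _ => false))
        - δ • ∑ i ∈ Finset.range N, (if ε i then e i else 0)‖ ≤ η * δ := by
  have hmem : ∀ i, ∀ z ∈ F, c i • O i z + t i ∈ F := by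
    intro i z hz
    rw [hF]
    exact Set.mem_iUnion.2 ⟨i, z, hz, rfl⟩
  obtain ⟨x, hx, y, hy, hxy⟩ := hF2
  obtain ⟨D', hD'⟩ := hFc.isBounded.exists_norm_le
  set D : ℝ := 2 * |D'| + 1 with hDdef
  have hD0 : 0 < D := by positivity
  have hD : ∀ z ∈ F, ∀ z' ∈ F, ‖z - z'‖ ≤ D := by
    intro z hz z' hz'
    have h1 := norm_sub_le z z'
    have h2 := (hD' z hz).trans (le_abs_self D')
    have h3 := (hD' z' hz').trans (le_abs_self D')
    linarith
  obtain ⟨δ, hδ, G, hG, P, hPF, hP⟩ := exists_chain c O t hc hF hD0 hD hx hy hxy hdense V hV N e heV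
    he1 (η / 2) (by positivity)
  obtain ⟨w, hw⟩ := exists_word_rot_close O hdense G hG (show 0 < η * δ / (2 * D) by positivity)
  have hcw0 : 0 < ratio c w := ratio_pos (fun i => (hc i).1) w
  refine ⟨ratio c w * δ, by positivity, fun ε => act c O t w (P ε), fun ε => act_mem c O t hmem w
    (hPF ε), fun ε => ?_⟩
  rw [← map_sub, act_sub, map_smul, mul_smul, ← smul_sub, norm_smul, Real.norm_eq_abs,
    abs_of_pos hcw0]
  set u := P ε - P (fun _ => false) with hu
  have huD : ‖u‖ ≤ D := hD _ (hPF _) _ (hPF _)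
  have h2 : V.starProjection (rot O w u) - δ • ∑ i ∈ Finset.range N, (if ε i then e i else 0)
      = V.starProjection (rot O w u - G u)
        + (V.starProjection (G u) - δ • ∑ i ∈ Finset.range N, (if ε i then e i else 0)) := by
    rw [map_sub V.starProjection (rot O w u) (G u)]; abel
  rw [h2]
  have h3 := norm_add_le (V.starProjection (rot O w u - G u))
    (V.starProjection (G u) - δ • ∑ i ∈ Finset.range N, (if ε i then e i else 0))
  have h4 := norm_starProjection_le V (rot O w u - G u)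
  have h5 := hw u
  have h6 : η * δ / (2 * D) * ‖u‖ ≤ η * δ / (2 * D) * D := by gcongr
  have h7 : η * δ / (2 * D) * D = η * δ / 2 := by field_simp
  have h8 := hP ε
  calc ratio c w * _ ≤ ratio c w * (η * δ / 2 + η / 2 * δ) := by
        gcongr
        linarith
    _ = η * (ratio c w * δ) := by ring

end Pool.Agent.Helper98_Assouad
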